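import Mathlib

/-!
Squad RS, module CYC, part 1: cyclic sequences and Hamilton cycles in dense graphs.
-/

set_option autoImplicit false

open SimpleGraph

namespace Pool.Agent.RS80.H21

variable {V : Type}

/-- `F 0, ..., F (m - 1)` is a cycle of `T`. -/
def Cyc (T : SimpleGraph V) (m : ℕ) (F : ℕ → V) : Prop :=
  (∀ a b, a < m → b < m → F a = F b → a = b) ∧ (∀ a, a + 1 < m → T.Adj (F a) (F (a + 1))) ∧
    T.Adj (F (m - 1)) (F 0)

theorem adj_elim {n : ℕ} {u v : Fin n} (h : (cycleGraph n).Adj u v) :
    u.val + 1 = v.val ∨ v.val + 1 = u.val ∨ (u.val + 1 = n ∧ v.val = 0) ∨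
      (v.val + 1 = n ∧ u.val = 0) := by
  have key : ∀ u v : Fin n, (v - u).val = 1 → u.val + 1 = v.val ∨ (u.val + 1 = n ∧ v.val = 0) := by
    intro u v h
    have hu := u.2
    have hv := v.2
    rw [Fin.sub_def] at h
    have h' : (n - u.val + v.val) % n = 1 := h
    rcases lt_or_ge (n - u.val + v.val) n with h1 | h1
    · rw [Nat.mod_eq_of_lt h1] at h'
      omega
    · rw [Nat.mod_eq_sub_mod h1, Nat.mod_eq_of_lt (by omega)] at h'
      omega
  rw [cycleGraph_adj'] at h
  rcases h with h | h
  · rcases key v u h with h1 | h1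
    · exact Or.inr (Or.inl h1)
    · exact Or.inr (Or.inr (Or.inr h1))
  · rcases key u v h with h1 | h1
    · exact Or.inl h1
    · exact Or.inr (Or.inr (Or.inl h1))

theorem adj_succ {n : ℕ} {u v : Fin n} (h : u.val + 1 = v.val) : (cycleGraph n).Adj u v := by
  rw [cycleGraph_adj']
  right
  have hu := u.2
  have hv := v.2
  rw [Fin.sub_def]
  show (n - u.val + v.val) % n = 1
  rw [Nat.mod_eq_sub_mod (by omega), Nat.mod_eq_of_lt (by omega)]
  omega

theorem adj_last {n : ℕ} (hn : 2 ≤ n) {u v : Fin n} (h : u.val + 1 = n) (h0 : v.val = 0) :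
    (cycleGraph n).Adj u v := by
  rw [cycleGraph_adj']
  right
  rw [Fin.sub_def]
  show (n - u.val + v.val) % n = 1
  rw [Nat.mod_eq_of_lt (by omega)]
  omega

theorem Cyc.contained {T : SimpleGraph V} {m : ℕ} {F : ℕ → V} (h : Cyc T m F) :
    cycleGraph m ⊑ T := by
  refine ⟨⟨⟨fun i => F i.val, ?_⟩, ?_⟩⟩
  · intro u v huv
    have hu := u.2
    have hv := v.2
    show T.Adj (F u.val) (F v.val)
    rcases adj_elim huv with h1 | h1 | h1 | h1
    · rw [← h1]
      exact h.2.1 _ (by omega)
    · rw [← h1]
      exact (h.2.1 _ (by omega)).symm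
    · have h2 : u.val = m - 1 := by omega
      rw [h2, h1.2]
      exact h.2.2
    · have h2 : v.val = m - 1 := by omega
      rw [h2, h1.2]
      exact h.2.2.symm
  · intro u v huv
    exact Fin.ext (h.1 _ _ u.2 v.2 huv)

theorem Cyc.rot {T : SimpleGraph V} {m : ℕ} {F : ℕ → V} (hm : 2 ≤ m) (h : Cyc T m F) :
    Cyc T m (fun a => if a + 1 < m then F (a + 1) else F 0) := by
  refine ⟨?_, ?_, ?_⟩
  · intro a b ha hb hab
    by_cases h1 : a + 1 < m
    · by_cases h2 : b + 1 < m
      · simp only [h1, h2, if_true] at hab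
        have := h.1 _ _ h1 h2 hab
        omega
      · simp only [h1, h2, if_true, if_false] at hab
        have := h.1 _ _ h1 (by omega) hab
        omega
    · by_cases h2 : b + 1 < m
      · simp only [h1, h2, if_true, if_false] at hab
        have := h.1 _ _ (by omega) h2 hab
        omega
      · omega
  · intro a ha
    simp only [ha, if_true]
    by_cases h2 : a + 1 + 1 < m
    · simp only [h2, if_true]
      exact h.2.1 _ h2
    · simp only [h2, if_false]
      have h3 : a + 1 = m - 1 := by omega
      rw [h3]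
      exact h.2.2
  · have h1 : ¬ (m - 1 + 1 < m) := by omega
    have h2 : 0 + 1 < m := by omega
    simp only [h1, h2, if_true, if_false]
    exact h.2.1 0 h2

theorem Cyc.ins {T : SimpleGraph V} {m : ℕ} {F : ℕ → V} (hm : 1 ≤ m) (h : Cyc T m F) {v : V}
    (hv : ∀ a, a < m → F a ≠ v) (h1 : T.Adj v (F (m - 1))) (h2 : T.Adj v (F 0)) :
    Cyc T (m + 1) (fun a => if a < m then F a else v) := by
  refine ⟨?_, ?_, ?_⟩
  · intro a b ha hb hab
    by_cases h3 : a < m
    · by_cases h4 : b < m
      · simp only [h3, h4, if_true] at hab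
        exact h.1 _ _ h3 h4 hab
      · simp only [h3, h4, if_true, if_false] at hab
        exact absurd hab (hv a h3)
    · by_cases h4 : b < m
      · simp only [h3, h4, if_true, if_false] at hab
        exact absurd hab.symm (hv b h4)
      · omega
  · intro a ha
    have h3 : a < m := by omega
    by_cases h4 : a + 1 < m
    · simp only [h3, h4, if_true]
      exact h.2.1 _ h4
    · simp only [h3, h4, if_true, if_false]
      have h5 : a = m - 1 := by omega
      rw [h5]
      exact h1.symm
  · have h3 : ¬ (m + 1 - 1 < m) := by omega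
    have h4 : 0 < m := by omega
    simp only [h3, h4, if_true, if_false]
    exact h2

/-- a vertex with at most one non-neighbour can be inserted into a cycle -/
theorem Cyc.extend {T : SimpleGraph V} {m : ℕ} {F : ℕ → V} (hm : 3 ≤ m) (h : Cyc T m F) {v : V}
    (hv : ∀ a, a < m → F a ≠ v)
    (hone : ∀ c c', c ≠ c' → c ≠ v → c' ≠ v → T.Adj v c ∨ T.Adj v c') :
    ∃ F' : ℕ → V, Cyc T (m + 1) F' ∧ ∀ a, a < m → ∃ b, b < m + 1 ∧ F' b = F a := by
  by_cases hbad : ∃ i, i < m ∧ ¬ T.Adj v (F i)
  · obtain ⟨i, him, hi⟩ := hbad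
    have hgood : ∀ a, a < m → a ≠ i → T.Adj v (F a) := by
      intro a ha hai
      rcases hone (F a) (F i) (fun hc => hai (h.1 _ _ ha him hc)) (hv a ha) (hv i him) with h1 | h1
      · exact h1
      · exact absurd h1 hi
    by_cases h0 : i = 0
    · -- rotate twice
      have hr := (h.rot (by omega)).rot (by omega)
      refine ⟨_, hr.ins (by omega) (v := v) ?_ ?_ ?_, ?_⟩
      · intro a ha
        split_ifs
        · exact hv _ (by omega)
        · exact hv _ (by omega)
        · exact hv _ (by omega)
        · exact hv _ (by omega)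
      · have h1 : ¬ (m - 1 + 1 < m) := by omega
        have h2 : 0 + 1 < m := by omega
        simp only [h1, h2, if_true, if_false]
        exact hgood _ h2 (by omega)
      · have h1 : 0 + 1 < m := by omega
        have h2 : 0 + 1 + 1 < m := by omega
        simp only [h1, h2, if_true]
        exact hgood _ h2 (by omega)
      · intro a ha
        by_cases ha2 : 2 ≤ a
        · refine ⟨a - 2, by omega, ?_⟩
          have h1 : a - 2 < m := by omega
          have h2 : a - 2 + 1 < m := by omega
          have h4 : a - 2 + 1 + 1 = a := by omega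
          simp only [h1, h2, h4, ha, if_true]
        · by_cases ha1 : a = 1
          · refine ⟨m - 1, by omega, ?_⟩
            have h1 : m - 1 < m := by omega
            have h2 : ¬ (m - 1 + 1 < m) := by omega
            have h3 : 0 + 1 < m := by omega
            simp only [h1, h2, h3, if_true, if_false, ha1]
          · refine ⟨m - 2, by omega, ?_⟩
            have h1 : m - 2 < m := by omega
            have h2 : m - 2 + 1 < m := by omega
            have h3 : ¬ (m - 2 + 1 + 1 < m) := by omega
            have h4 : a = 0 := by omega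
            simp only [h1, h2, h3, h4, if_true, if_false]
    · by_cases hl : i = m - 1
      · -- rotate once
        have hr := h.rot (by omega)
        refine ⟨_, hr.ins (by omega) (v := v) ?_ ?_ ?_, ?_⟩
        · intro a ha
          split_ifs
          · exact hv _ (by omega)
          · exact hv _ (by omega)
        · have h1 : ¬ (m - 1 + 1 < m) := by omega
          simp only [h1, if_false]
          exact hgood _ (by omega) (by omega)
        · have h1 : 0 + 1 < m := by omega
          simp only [h1, if_true]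
          exact hgood _ h1 (by omega)
        · intro a ha
          by_cases ha1 : 1 ≤ a
          · refine ⟨a - 1, by omega, ?_⟩
            have h1 : a - 1 < m := by omega
            have h3 : a - 1 + 1 = a := by omega
            simp only [h1, h3, if_true, ha]
          · refine ⟨m - 1, by omega, ?_⟩
            have h1 : m - 1 < m := by omega
            have h2 : ¬ (m - 1 + 1 < m) := by omega
            have h3 : a = 0 := by omega
            simp only [h1, h2, h3, if_true, if_false]
      · refine ⟨_, h.ins (by omega) hv (hgood _ (by omega) (by omega))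
          (hgood _ (by omega) (by omega)), ?_⟩
        intro a ha
        refine ⟨a, by omega, ?_⟩
        simp only [ha, if_true]
  · push Not at hbad
    refine ⟨_, h.ins (by omega) hv (hbad _ (by omega)) (hbad _ (by omega)), ?_⟩
    intro a ha
    refine ⟨a, by omega, ?_⟩
    simp only [ha, if_true]

/-- Hamilton cycles: all vertices but `x₀` have at most one non-neighbour -/
theorem ham_aux {n : ℕ} {T : SimpleGraph (Fin n)} (x₀ : Fin n)
    (hone : ∀ v, v ≠ x₀ → ∀ c c', c ≠ c' → c ≠ v → c' ≠ v → T.Adj v c ∨ T.Adj v c')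
    (p q : Fin n) (hp : T.Adj x₀ p) (hq : T.Adj x₀ q) (hpq : T.Adj p q) :
    ∀ m, m + 3 ≤ n → ∃ F : ℕ → Fin n, Cyc T (m + 3) F ∧ ∃ a, a < m + 3 ∧ F a = x₀ := by
  intro m
  induction m with
  | zero =>
    intro _
    refine ⟨fun a => if a = 0 then x₀ else if a = 1 then p else q, ⟨?_, ?_, ?_⟩, 0, by omega, rfl⟩
    · intro a b ha hb hab
      have h1 := hp.ne
      have h2 := hq.ne
      have h3 := hpq.ne
      have ha' : a = 0 ∨ a = 1 ∨ a = 2 := by omega
      have hb' : b = 0 ∨ b = 1 ∨ b = 2 := by omega
      rcases ha' with rfl | rfl | rfl <;> rcases hb' with rfl | rfl | rfl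
      · rfl
      · exact absurd hab h1
      · exact absurd hab h2
      · exact absurd hab.symm h1
      · rfl
      · exact absurd hab h3
      · exact absurd hab.symm h2
      · exact absurd hab.symm h3
      · rfl
    · intro a ha
      have ha' : a = 0 ∨ a = 1 := by omega
      rcases ha' with rfl | rfl
      · exact hp
      · exact hpq
    · exact hq.symm
  | succ m ih =>
    intro hm
    obtain ⟨F, hF, a, ha, hax⟩ := ih (by omega)
    have hv : ∃ v, ∀ a, a < m + 3 → F a ≠ v := by
      by_contra hcon
      push Not at hcon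
      have h1 : (Finset.univ : Finset (Fin n)) ⊆ (Finset.range (m + 3)).image F := by
        intro v _
        obtain ⟨b, hb, hbv⟩ := hcon v
        exact Finset.mem_image.2 ⟨b, Finset.mem_range.2 hb, hbv⟩
      have h2 := Finset.card_le_card h1
      have h3 := Finset.card_image_le (s := Finset.range (m + 3)) (f := F)
      rw [Finset.card_univ, Fintype.card_fin] at h2
      rw [Finset.card_range] at h3
      omega
    obtain ⟨v, hv⟩ := hv
    have hvx : v ≠ x₀ := by
      rintro rfl
      exact hv a ha hax
    obtain ⟨F', hF', hsub⟩ := hF.extend (by omega) hv (hone v hvx)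
    obtain ⟨b, hb, hbx⟩ := hsub a ha
    exact ⟨F', hF', b, hb, hbx.trans hax⟩

/-- Hamilton cycles in a graph whose complement is almost a matching -/
theorem ham {n : ℕ} (hn : 6 ≤ n) {T : SimpleGraph (Fin n)} (y : Fin n)
    (h : ∀ v c c', c ≠ c' → c ≠ y → c' ≠ y → c ≠ v → c' ≠ v → T.Adj v c ∨ T.Adj v c') :
    cycleGraph n ⊑ T := by
  classical
  have hx : ∃ x₀ : Fin n, ∀ v, v ≠ x₀ → ∀ c c', c ≠ c' → c ≠ v → c' ≠ v →
      T.Adj v c ∨ T.Adj v c' := by
    by_cases h1 : ∃ x, x ≠ y ∧ ¬ T.Adj y x
    · obtain ⟨x, hxy, hx⟩ := h1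
      refine ⟨x, fun v hv c c' hcc hc hc' => ?_⟩
      by_contra hcon
      push Not at hcon
      have key : ∀ u, u ≠ v → ¬ T.Adj v u → u ≠ y := by
        rintro u huv hu rfl
        rcases h u v x hv (Ne.symm huv) hxy (Ne.symm huv) hxy with h2 | h2
        · exact hu h2.symm
        · exact hx h2
      rcases h v c c' hcc (key c hc hcon.1) (key c' hc' hcon.2) hc hc' with h2 | h2
      · exact hcon.1 h2
      · exact hcon.2 h2
    · push Not at h1
      refine ⟨y, fun v hv c c' hcc hc hc' => ?_⟩
      by_cases h2 : c = y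
      · left
        rw [h2]
        exact (h1 v hv).symm
      · by_cases h3 : c' = y
        · right
          rw [h3]
          exact (h1 v hv).symm
        · exact h v c c' hcc h2 h3 hc hc'
  obtain ⟨x₀, hone⟩ := hx
  have hcard : 3 ≤ (Finset.univ.filter (fun c => T.Adj x₀ c)).card := by
    have h1 : ((Finset.univ \ {x₀, y}).filter (fun c => ¬ T.Adj x₀ c)).card ≤ 1 := by
      rw [Finset.card_le_one]
      intro c hc c' hc'
      rw [Finset.mem_filter, Finset.mem_sdiff, Finset.mem_insert, Finset.mem_singleton] at hc hc'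
      push Not at hc hc'
      by_contra hne
      rcases h x₀ c c' hne hc.1.2.2 hc'.1.2.2 hc.1.2.1 hc'.1.2.1 with h2 | h2
      · exact hc.2 h2
      · exact hc'.2 h2
    have h2 : (Finset.univ \ {x₀, y} : Finset (Fin n)).card + 2 ≥ n := by
      have h3 := Finset.card_sdiff_add_card (Finset.univ : Finset (Fin n)) {x₀, y}
      have h4 : ({x₀, y} : Finset (Fin n)).card ≤ 2 := Finset.card_le_two
      have h5 : (Finset.univ : Finset (Fin n)).card ≤ (Finset.univ ∪ {x₀, y} : Finset (Fin n)).card :=
        Finset.card_le_card Finset.subset_union_left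
      rw [Finset.card_univ, Fintype.card_fin] at h5
      omega
    have h3 := Finset.card_filter_add_card_filter_not (s := (Finset.univ \ {x₀, y} : Finset (Fin n)))
      (fun c => T.Adj x₀ c)
    have h4 : ((Finset.univ \ {x₀, y}).filter (fun c => T.Adj x₀ c)).card ≤
        (Finset.univ.filter (fun c => T.Adj x₀ c)).card :=
      Finset.card_le_card (Finset.filter_subset_filter _ (Finset.subset_univ _))
    omega
  obtain ⟨p, q, r, hp, hq, hr, hpq, hpr, hqr⟩ := Finset.two_lt_card_iff.1 hcard
  rw [Finset.mem_filter] at hp hq hr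
  have hpx : p ≠ x₀ := hp.2.ne.symm
  have : ∃ q', T.Adj x₀ q' ∧ T.Adj p q' := by
    rcases hone p hpx q r hqr (Ne.symm hpq) (Ne.symm hpr) with h2 | h2
    · exact ⟨q, hq.2, h2⟩
    · exact ⟨r, hr.2, h2⟩
  obtain ⟨q', hq', hpq'⟩ := this
  obtain ⟨F, hF, _⟩ := ham_aux x₀ hone p q' hp.2 hq' hpq' (n - 3) (by omega)
  have h5 : n - 3 + 3 = n := by omega
  rw [h5] at hF
  exact hF.contained

end Pool.Agent.RS80.H21
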