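import Pool.Agent.Helper80_RS.Stmts
import Pool.Agent.Helper21_RS.Ham

/-!
Squad RS, module CYC: even cycles of length at least 6 are not Ramsey equivalent to the graphs
obtained by adding pendant edges.
-/

set_option autoImplicit false

open SimpleGraph

namespace Pool.Agent.RS80.H21

/-- the vertices: hubs, points, cells -/
inductive VV (k N : ℕ)
  | hub (b : Bool) (a : Fin (k - 1))
  | pt (i : Fin N)
  | cell (j : Fin (2 * k) → Fin N) (c : Fin (2 * k))

instance (k N : ℕ) : Finite (VV k N) := by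
  let f : VV k N → (Bool × Fin (k - 1)) ⊕ (Fin N ⊕ ((Fin (2 * k) → Fin N) × Fin (2 * k))) :=
    fun x => match x with
      | .hub b a => .inl (b, a)
      | .pt i => .inr (.inl i)
      | .cell j c => .inr (.inr (j, c))
  apply Finite.of_injective f
  intro x y h
  cases x <;> cases y <;> simp_all [f]

/-- the host graph -/
def GG (k N : ℕ) : SimpleGraph (VV k N) where
  Adj x y := match x, y with
    | .hub _ _, .pt _ => True
    | .pt _, .hub _ _ => True
    | .pt i, .cell j c => j c = i
    | .cell j c, .pt i => j c = i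
    | .cell j c, .cell j' c' => j = j' ∧ c ≠ c'
    | _, _ => False
  symm := ⟨by
    rintro (⟨b, a⟩ | i | ⟨j, c⟩) (⟨b', a'⟩ | i' | ⟨j', c'⟩) h
    · exact h
    · exact h
    · exact h
    · exact h
    · exact h
    · exact h
    · exact h
    · exact h
    · exact ⟨h.1.symm, h.2.symm⟩⟩
  loopless := ⟨by
    rintro (⟨b, a⟩ | i | ⟨j, c⟩) h
    · exact h
    · exact h
    · exact h.2 rfl⟩

/-- the red graph of the good colouring -/
def RR (k N : ℕ) : SimpleGraph (VV k N) where
  Adj x y := match x, y with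
    | .hub b _, .pt _ => b = true
    | .pt _, .hub b _ => b = true
    | .cell j c, .cell j' c' => j = j' ∧ c ≠ c'
    | _, _ => False
  symm := ⟨by
    rintro (⟨b, a⟩ | i | ⟨j, c⟩) (⟨b', a'⟩ | i' | ⟨j', c'⟩) h
    · exact h
    · exact h
    · exact h
    · exact h
    · exact h
    · exact h
    · exact h
    · exact h
    · exact ⟨h.1.symm, h.2.symm⟩⟩
  loopless := ⟨by
    rintro (⟨b, a⟩ | i | ⟨j, c⟩) h
    · exact h
    · exact h
    · exact h.2 rfl⟩

theorem RR_le (k N : ℕ) : RR k N ≤ GG k N := by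
  rintro (⟨b, a⟩ | i | ⟨j, c⟩) (⟨b', a'⟩ | i' | ⟨j', c'⟩) h
  · exact h
  · trivial
  · exact h
  · trivial
  · exact h
  · exact absurd h id
  · exact h
  · exact absurd h id
  · exact h

/-- a cycle of length `2 k` cannot have a vertex cover with `k - 1` vertices -/
theorem no_cover {V : Type} {k : ℕ} (hk : 3 ≤ k) {T : SimpleGraph V}
    (f : Copy (cycleGraph (2 * k)) T) (u : Fin (k - 1) → V)
    (h : ∀ x y : Fin (2 * k), (cycleGraph (2 * k)).Adj x y → (∃ a, u a = f x) ∨ ∃ a, u a = f y) :
    False := by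
  have h1 : ∀ t : Fin k, ∃ (a : Fin (k - 1)) (x : Fin (2 * k)), u a = f x ∧ x.val / 2 = t.val := by
    intro t
    have ht := t.2
    rcases h ⟨2 * t.val, by omega⟩ ⟨2 * t.val + 1, by omega⟩ (adj_succ rfl) with ⟨a, ha⟩ | ⟨a, ha⟩
    · exact ⟨a, _, ha, by show 2 * t.val / 2 = t.val; omega⟩
    · exact ⟨a, _, ha, by show (2 * t.val + 1) / 2 = t.val; omega⟩
  choose g x hg hx using h1
  have hinj : Function.Injective g := by
    intro s t hst
    have h2 : f (x s) = f (x t) := by rw [← hg, ← hg, hst]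
    have h3 := f.injective h2
    apply Fin.ext
    rw [← hx, ← hx, h3]
  have h4 := Fintype.card_le_of_injective g hinj
  rw [Fintype.card_fin, Fintype.card_fin] at h4
  omega

theorem two_nbrs {n : ℕ} (hn : 3 ≤ n) (i : Fin n) :
    ∃ u v : Fin n, u ≠ v ∧ (cycleGraph n).Adj i u ∧ (cycleGraph n).Adj i v := by
  have hi := i.2
  by_cases h0 : i.val = 0
  · refine ⟨⟨1, by omega⟩, ⟨n - 1, by omega⟩, ?_, ?_, ?_⟩
    · intro h
      have := congrArg Fin.val h
      simp only at this
      omega
    · exact adj_succ (by rw [h0])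
    · exact (adj_last (by omega) (by show n - 1 + 1 = n; omega) h0).symm
  · by_cases hl : i.val + 1 = n
    · refine ⟨⟨0, by omega⟩, ⟨i.val - 1, by omega⟩, ?_, ?_, ?_⟩
      · intro h
        have := congrArg Fin.val h
        simp only at this
        omega
      · exact adj_last (by omega) hl rfl
      · exact (adj_succ (by show i.val - 1 + 1 = i.val; omega)).symm
    · refine ⟨⟨i.val + 1, by omega⟩, ⟨i.val - 1, by omega⟩, ?_, ?_, ?_⟩
      · intro h
        have := congrArg Fin.val h
        simp only at this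
        omega
      · exact adj_succ rfl
      · exact (adj_succ (by show i.val - 1 + 1 = i.val; omega)).symm

/-- the inclusion of `B` into `pend B Z` -/
def inlCopy {V : Type} (B : SimpleGraph V) (Z : Set V) : Copy B (pend B Z) :=
  ⟨⟨Sum.inl, fun h => h⟩, Sum.inl_injective⟩

theorem rr_cell {k N : ℕ} {j : Fin (2 * k) → Fin N} {c : Fin (2 * k)} {y : VV k N}
    (h : (RR k N).Adj (VV.cell j c) y) : ∃ c', y = VV.cell j c' := by
  cases y with
  | hub b a => exact absurd h id
  | pt i => exact absurd h id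
  | cell j' c' => exact ⟨c', by rw [h.1]⟩

theorem red_free {k N : ℕ} (hk : 3 ≤ k) {Z : Set (Fin (2 * k))} (hZ : Z.Nonempty) :
    ¬ pend (cycleGraph (2 * k)) Z ⊑ RR k N := by
  rintro ⟨f⟩
  let g : Copy (cycleGraph (2 * k)) (RR k N) := f.comp (inlCopy _ Z)
  have hg : ∀ i, g i = f (Sum.inl i) := fun _ => rfl
  by_cases hcell : ∃ i j c, g i = VV.cell j c
  · obtain ⟨i, j, hc⟩ := hcell
    have hwalk : ∀ i i' : Fin (2 * k), (cycleGraph (2 * k)).Walk i i' →
        (∃ c, g i = VV.cell j c) → ∃ c', g i' = VV.cell j c' := by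
      intro i i' w
      induction w with
      | nil => exact id
      | cons hadj _ ih =>
        rintro ⟨c, hc⟩
        apply ih
        have h1 : (RR k N).Adj (g _) (g _) := g.toHom.map_adj hadj
        rw [hc] at h1
        exact rr_cell h1
    have hall : ∀ i', ∃ c', g i' = VV.cell j c' := by
      intro i'
      obtain ⟨w⟩ : (cycleGraph (2 * k)).Reachable i i' := cycleGraph_preconnected i i'
      exact hwalk i i' w hc
    obtain ⟨z, hz⟩ := hZ
    choose γ hγ using hall
    have h3 : ∃ c', f (Sum.inr ⟨z, hz⟩) = VV.cell j c' := by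
      have h4 : (pend (cycleGraph (2 * k)) Z).Adj (Sum.inl z) (Sum.inr ⟨z, hz⟩) := rfl
      have h5 := f.toHom.map_adj h4
      have h6 : (RR k N).Adj (VV.cell j (γ z)) (f (Sum.inr ⟨z, hz⟩)) := by
        rw [← hγ]
        exact h5
      exact rr_cell h6
    obtain ⟨c', hc'⟩ := h3
    let F : Option (Fin (2 * k)) → Fin (2 * k) := fun o => match o with
      | none => c'
      | some i => γ i
    have hF : Function.Injective F := by
      intro a b hab
      cases a with
      | none =>
        cases b with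
        | none => rfl
        | some b =>
          have h7 : f (Sum.inr ⟨z, hz⟩) = f (Sum.inl b) := by
            rw [hc', ← hg, hγ]
            exact congrArg _ hab
          exact absurd (f.injective h7) (by simp)
      | some a =>
        cases b with
        | none =>
          have h7 : f (Sum.inr ⟨z, hz⟩) = f (Sum.inl a) := by
            rw [hc', ← hg, hγ]
            exact congrArg _ hab.symm
          exact absurd (f.injective h7) (by simp)
        | some b =>
          have h7 : f (Sum.inl a) = f (Sum.inl b) := by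
            rw [← hg, ← hg, hγ, hγ]
            exact congrArg _ hab
          rw [Sum.inl_injective (f.injective h7)]
    have h8 := Fintype.card_le_of_injective F hF
    rw [Fintype.card_option, Fintype.card_fin] at h8
    omega
  · apply no_cover hk g (fun a => VV.hub true a)
    intro x y hxy
    have h1 := g.toHom.map_adj hxy
    have h2 : (RR k N).Adj (g x) (g y) := h1
    have hx : ∀ j c, g x ≠ VV.cell j c := fun j c h => hcell ⟨x, j, c, h⟩
    have hy : ∀ j c, g y ≠ VV.cell j c := fun j c h => hcell ⟨y, j, c, h⟩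
    generalize g x = u at h2 hx
    generalize g y = v at h2 hy
    cases u with
    | hub b a =>
      cases v with
      | hub b' a' => exact absurd h2 id
      | pt i =>
        left
        have h3 : b = true := h2
        exact ⟨a, by rw [h3]⟩
      | cell j c => exact absurd rfl (hy j c)
    | pt i =>
      cases v with
      | hub b' a' =>
        right
        have h3 : b' = true := h2
        exact ⟨a', by rw [h3]⟩
      | pt i' => exact absurd h2 id
      | cell j c => exact absurd rfl (hy j c)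
    | cell j c => exact absurd rfl (hx j c)

theorem bb_cell {k N : ℕ} {j : Fin (2 * k) → Fin N} {c : Fin (2 * k)} {y : VV k N}
    (h : (GG k N \ RR k N).Adj (VV.cell j c) y) : y = VV.pt (j c) := by
  cases y with
  | hub b a => exact absurd h.1 id
  | pt i =>
    have h1 : j c = i := h.1
    rw [h1]
  | cell j' c' => exact absurd h.1 h.2

theorem blue_free {k N : ℕ} (hk : 3 ≤ k) {Z : Set (Fin (2 * k))} :
    ¬ pend (cycleGraph (2 * k)) Z ⊑ GG k N \ RR k N := by
  rintro ⟨f⟩
  let g : Copy (cycleGraph (2 * k)) (GG k N \ RR k N) := f.comp (inlCopy _ Z)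
  have hcell : ∀ i j c, g i ≠ VV.cell j c := by
    intro i j c hi
    obtain ⟨u, v, huv, hu, hv⟩ := two_nbrs (n := 2 * k) (by omega) i
    have h1 : (GG k N \ RR k N).Adj (VV.cell j c) (g u) := by
      rw [← hi]
      exact g.toHom.map_adj hu
    have h2 : (GG k N \ RR k N).Adj (VV.cell j c) (g v) := by
      rw [← hi]
      exact g.toHom.map_adj hv
    exact huv (g.injective ((bb_cell h1).trans (bb_cell h2).symm))
  apply no_cover hk g (fun a => VV.hub false a)
  intro x y hxy
  have h2 : (GG k N \ RR k N).Adj (g x) (g y) := g.toHom.map_adj hxy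
  have hx := hcell x
  have hy := hcell y
  generalize g x = u at h2 hx
  generalize g y = v at h2 hy
  cases u with
  | hub b a =>
    cases v with
    | hub b' a' => exact absurd h2.1 id
    | pt i =>
      left
      cases b with
      | true => exact absurd rfl h2.2
      | false => exact ⟨a, rfl⟩
    | cell j c => exact absurd rfl (hy j c)
  | pt i =>
    cases v with
    | hub b' a' =>
      right
      cases b' with
      | true => exact absurd rfl h2.2
      | false => exact ⟨a', rfl⟩
    | pt i' => exact absurd h2.1 id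
    | cell j c => exact absurd rfl (hy j c)
  | cell j c => exact absurd rfl (hx j c)

theorem enum {α : Type} (Hs : Finset α) {m : ℕ} (hm : m ≤ Hs.card) (hm0 : 1 ≤ m) :
    ∃ e : ℕ → α, (∀ t, t < m → e t ∈ Hs) ∧ ∀ s t, s < m → t < m → e s = e t → s = t := by
  classical
  have hne : Hs.Nonempty := Finset.card_pos.1 (by omega)
  obtain ⟨a₀, _⟩ := hne
  refine ⟨fun t => if h : t < Hs.card then (Hs.equivFin.symm ⟨t, h⟩ : α) else a₀, ?_, ?_⟩
  · intro t ht
    beta_reduce
    rw [dif_pos (by omega)]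
    exact (Hs.equivFin.symm _).2
  · intro s t hs ht hst
    simp only at hst
    rw [dif_pos (by omega), dif_pos (by omega)] at hst
    have h1 := Hs.equivFin.symm.injective (Subtype.ext hst)
    exact congrArg Fin.val h1

theorem big {k N : ℕ} (hk : 3 ≤ k) {T : SimpleGraph (VV k N)} {Hs : Finset (Bool × Fin (k - 1))}
    (hcard : k ≤ Hs.card) {j : Fin (2 * k) → Fin N} (hj : Function.Injective j)
    (hadj : ∀ h ∈ Hs, ∀ t, T.Adj (VV.hub h.1 h.2) (VV.pt (j t))) : cycleGraph (2 * k) ⊑ T := by
  obtain ⟨e, he, hinj⟩ := enum Hs hcard (by omega)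
  have hlt : ∀ t, t % (2 * k) < 2 * k := fun t => Nat.mod_lt _ (by omega)
  let F : ℕ → VV k N := fun a => if a % 2 = 0 then VV.pt (j ⟨(a / 2) % (2 * k), hlt _⟩) else
    VV.hub (e (a / 2)).1 (e (a / 2)).2
  have hF0 : ∀ a, a % 2 = 0 → F a = VV.pt (j ⟨(a / 2) % (2 * k), hlt _⟩) := by
    intro a ha
    simp only [F, ha, if_true]
  have hF1 : ∀ a, ¬ a % 2 = 0 → F a = VV.hub (e (a / 2)).1 (e (a / 2)).2 := by
    intro a ha
    simp only [F, ha, if_false]
  have hFF : ∀ a b, a % 2 = 0 → ¬ b % 2 = 0 → b < 2 * k → T.Adj (F b) (F a) := by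
    intro a b ha hb hbk
    rw [hF0 a ha, hF1 b hb]
    exact hadj _ (he _ (by omega)) _
  apply Cyc.contained (F := F)
  refine ⟨?_, ?_, ?_⟩
  · intro a b ha hb hab
    by_cases ha0 : a % 2 = 0
    · by_cases hb0 : b % 2 = 0
      · rw [hF0 a ha0, hF0 b hb0] at hab
        have h1 := congrArg Fin.val (hj (VV.pt.inj hab))
        simp only at h1
        rw [Nat.mod_eq_of_lt (by omega), Nat.mod_eq_of_lt (by omega)] at h1
        omega
      · rw [hF0 a ha0, hF1 b hb0] at hab
        cases hab
    · by_cases hb0 : b % 2 = 0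
      · rw [hF1 a ha0, hF0 b hb0] at hab
        cases hab
      · rw [hF1 a ha0, hF1 b hb0] at hab
        obtain ⟨h1, h2⟩ := VV.hub.inj hab
        have h3 := hinj _ _ (by omega) (by omega) (Prod.ext h1 h2)
        omega
  · intro a ha
    by_cases ha0 : a % 2 = 0
    · exact (hFF a (a + 1) ha0 (by omega) ha).symm
    · exact hFF (a + 1) a (by omega) ha0 (by omega)
  · exact hFF 0 (2 * k - 1) (by omega) (by omega) (by omega)

theorem exists_perm {n : ℕ} (q₀ q c' c : Fin n) (hq : q₀ ≠ q) (hc : c ≠ c') :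
    ∃ π : Equiv.Perm (Fin n), π q₀ = c' ∧ π q = c := by
  refine ⟨(Equiv.swap q₀ c').trans (Equiv.swap ((Equiv.swap q₀ c') q) c), ?_, ?_⟩
  · rw [Equiv.trans_apply, Equiv.swap_apply_left]
    apply Equiv.swap_apply_of_ne_of_ne
    · intro h
      have h1 : (Equiv.swap q₀ c') q₀ = (Equiv.swap q₀ c') q := by
        rw [Equiv.swap_apply_left]
        exact h
      exact hq ((Equiv.swap q₀ c').injective h1)
    · exact hc.symm
  · rw [Equiv.trans_apply, Equiv.swap_apply_left]

theorem close {k N : ℕ} (hk : 3 ≤ k) {T : SimpleGraph (VV k N)}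
    {Hs : Finset (Bool × Fin (k - 1))} (hcard : k - 2 ≤ Hs.card) {j : Fin (2 * k) → Fin N}
    (hj : Function.Injective j) (hadj : ∀ h ∈ Hs, ∀ t, T.Adj (VV.hub h.1 h.2) (VV.pt (j t)))
    {c c' x : Fin (2 * k)} (hcc : c ≠ c') (hxc : x ≠ c) (hxc' : x ≠ c')
    (h1 : T.Adj (VV.pt (j c)) (VV.cell j c)) (h2 : T.Adj (VV.cell j c') (VV.pt (j c')))
    (h3 : T.Adj (VV.cell j c) (VV.cell j x)) (h4 : T.Adj (VV.cell j x) (VV.cell j c')) :
    cycleGraph (2 * k) ⊑ T := by
  obtain ⟨q, hq⟩ : ∃ q, k = q + 2 := ⟨k - 2, by omega⟩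
  obtain ⟨e, he, hinj⟩ := enum Hs hcard (by omega)
  obtain ⟨π, hπ0, hπq⟩ := exists_perm (n := 2 * k) ⟨0, by omega⟩ ⟨q, by omega⟩ c' c
    (by intro h; have := congrArg Fin.val h; simp only at this; omega) hcc
  have hlt : ∀ t, t % (2 * k) < 2 * k := fun t => Nat.mod_lt _ (by omega)
  let F : ℕ → VV k N := fun a => if a ≤ 2 * q then
      (if a % 2 = 0 then VV.pt (j (π ⟨(a / 2) % (2 * k), hlt _⟩)) else
        VV.hub (e (a / 2)).1 (e (a / 2)).2)
    else if a = 2 * q + 1 then VV.cell j c else if a = 2 * q + 2 then VV.cell j x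
    else VV.cell j c'
  have hF0 : ∀ a, a ≤ 2 * q → a % 2 = 0 → F a = VV.pt (j (π ⟨(a / 2) % (2 * k), hlt _⟩)) := by
    intro a ha ha'
    simp only [F, ha, ha', if_true]
  have hF1 : ∀ a, a ≤ 2 * q → ¬ a % 2 = 0 → F a = VV.hub (e (a / 2)).1 (e (a / 2)).2 := by
    intro a ha ha'
    simp only [F, ha, ha', if_true, if_false]
  have hFa : F (2 * q + 1) = VV.cell j c := by
    have h5 : ¬ 2 * q + 1 ≤ 2 * q := by omega
    simp only [F, h5, if_true, if_false]
  have hFb : F (2 * q + 2) = VV.cell j x := by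
    have h5 : ¬ 2 * q + 2 ≤ 2 * q := by omega
    have h6 : ¬ 2 * q + 2 = 2 * q + 1 := by omega
    simp only [F, h5, h6, if_true, if_false]
  have hFc : F (2 * q + 3) = VV.cell j c' := by
    have h5 : ¬ 2 * q + 3 ≤ 2 * q := by omega
    have h6 : ¬ 2 * q + 3 = 2 * q + 1 := by omega
    have h7 : ¬ 2 * q + 3 = 2 * q + 2 := by omega
    simp only [F, h5, h6, h7, if_false]
  have hF00 : F 0 = VV.pt (j c') := by
    rw [hF0 0 (by omega) rfl, ← hπ0]
    congr 3
  have hFqq : F (2 * q) = VV.pt (j c) := by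
    rw [hF0 (2 * q) le_rfl (by omega), ← hπq]
    congr 3
    apply Fin.ext
    show (2 * q / 2) % (2 * k) = q
    rw [Nat.mod_eq_of_lt (by omega)]
    omega
  have hsmall : ∀ a, a ≤ 2 * q → ∀ u, F a ≠ VV.cell j u := by
    intro a ha u hu
    by_cases ha0 : a % 2 = 0
    · rw [hF0 a ha ha0] at hu
      cases hu
    · rw [hF1 a ha ha0] at hu
      cases hu
  have hcase : ∀ a, a < 2 * k → a ≤ 2 * q ∨ a = 2 * q + 1 ∨ a = 2 * q + 2 ∨ a = 2 * q + 3 := by
    intro a ha
    omega
  have hFF : ∀ a b, a ≤ 2 * q → b ≤ 2 * q → a % 2 = 0 → ¬ b % 2 = 0 → T.Adj (F b) (F a) := by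
    intro a b ha hb ha0 hb0
    rw [hF0 a ha ha0, hF1 b hb hb0]
    exact hadj _ (he _ (by omega)) _
  have hcellinj : ∀ u v, VV.cell j u = VV.cell (k := k) (N := N) j v → u = v :=
    fun u v h => (VV.cell.inj h).2
  apply Cyc.contained (F := F)
  refine ⟨?_, ?_, ?_⟩
  · intro a b ha hb hab
    rcases hcase a ha with h5 | h5 | h5 | h5 <;> rcases hcase b hb with h6 | h6 | h6 | h6
    · by_cases ha0 : a % 2 = 0
      · by_cases hb0 : b % 2 = 0
        · rw [hF0 a h5 ha0, hF0 b h6 hb0] at hab
          have h7 := congrArg Fin.val (π.injective (hj (VV.pt.inj hab)))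
          simp only at h7
          rw [Nat.mod_eq_of_lt (by omega), Nat.mod_eq_of_lt (by omega)] at h7
          omega
        · rw [hF0 a h5 ha0, hF1 b h6 hb0] at hab
          cases hab
      · by_cases hb0 : b % 2 = 0
        · rw [hF1 a h5 ha0, hF0 b h6 hb0] at hab
          cases hab
        · rw [hF1 a h5 ha0, hF1 b h6 hb0] at hab
          obtain ⟨h7, h8⟩ := VV.hub.inj hab
          have h9 := hinj _ _ (by omega) (by omega) (Prod.ext h7 h8)
          omega
    · rw [h6, hFa] at hab
      exact absurd hab (hsmall a h5 _)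
    · rw [h6, hFb] at hab
      exact absurd hab (hsmall a h5 _)
    · rw [h6, hFc] at hab
      exact absurd hab (hsmall a h5 _)
    · rw [h5, hFa] at hab
      exact absurd hab.symm (hsmall b h6 _)
    · omega
    · rw [h5, h6, hFa, hFb] at hab
      exact absurd (hcellinj _ _ hab).symm hxc
    · rw [h5, h6, hFa, hFc] at hab
      exact absurd (hcellinj _ _ hab) hcc
    · rw [h5, hFb] at hab
      exact absurd hab.symm (hsmall b h6 _)
    · rw [h5, h6, hFa, hFb] at hab
      exact absurd (hcellinj _ _ hab) hxc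
    · omega
    · rw [h5, h6, hFb, hFc] at hab
      exact absurd (hcellinj _ _ hab) hxc'
    · rw [h5, hFc] at hab
      exact absurd hab.symm (hsmall b h6 _)
    · rw [h5, h6, hFc, hFa] at hab
      exact absurd (hcellinj _ _ hab).symm hcc
    · rw [h5, h6, hFc, hFb] at hab
      exact absurd (hcellinj _ _ hab).symm hxc'
    · omega
  · intro a ha
    rcases hcase a (by omega) with h5 | h5 | h5 | h5
    · by_cases h6 : a + 1 ≤ 2 * q
      · by_cases ha0 : a % 2 = 0
        · exact (hFF a (a + 1) h5 h6 ha0 (by omega)).symm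
        · exact hFF (a + 1) a h6 h5 (by omega) ha0
      · have h7 : a = 2 * q := by omega
        rw [h7, hFqq, hFa]
        exact h1
    · rw [h5, hFa, hFb]
      exact h3
    · rw [h5, hFb, hFc]
      exact h4
    · omega
  · have h5 : 2 * k - 1 = 2 * q + 3 := by omega
    rw [h5, hFc, hF00]
    exact h2

/-- the part of the argument inside one cell, one colour -/
theorem main_one {k N : ℕ} (hk : 3 ≤ k) {R S : SimpleGraph (VV k N)}
    (hcov : ∀ x y, (GG k N).Adj x y → R.Adj x y ∨ S.Adj x y)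
    {Hs : Finset (Bool × Fin (k - 1))} (hcard : k - 2 ≤ Hs.card) {j : Fin (2 * k) → Fin N}
    (hj : Function.Injective j) (hadj : ∀ h ∈ Hs, ∀ t, S.Adj (VV.hub h.1 h.2) (VV.pt (j t)))
    (y : Fin (2 * k)) (hy : ∀ c, c ≠ y → S.Adj (VV.pt (j c)) (VV.cell j c)) :
    cycleGraph (2 * k) ⊑ R ∨ cycleGraph (2 * k) ⊑ S := by
  by_contra hcon
  rw [not_or] at hcon
  apply hcon.1
  have h1 : cycleGraph (2 * k) ⊑ R.comap (VV.cell j) := by
    apply ham (by omega) y
    intro v c c' hcc hcy hcy' hcv hcv'
    by_contra h2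
    push Not at h2
    apply hcon.2
    have h3 : ∀ u, u ≠ v → ¬ (R.comap (VV.cell j)).Adj v u → S.Adj (VV.cell j v) (VV.cell j u) := by
      intro u huv hu
      rcases hcov (VV.cell j v) (VV.cell j u) ⟨rfl, Ne.symm huv⟩ with h4 | h4
      · exact absurd h4 hu
      · exact h4
    exact close hk hcard hj hadj (c := c) (c' := c') (x := v) hcc (Ne.symm hcv) (Ne.symm hcv')
      (hy c hcy) (hy c' hcy').symm (h3 c hcv h2.1).symm (h3 c' hcv' h2.2)
  exact h1.trans ⟨⟨⟨VV.cell j, fun h => h⟩, fun a b h => (VV.cell.inj h).2⟩⟩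

/-- three vertices attached in `S`, two attached in `R` -/
theorem main_two {k N : ℕ} (hk : 3 ≤ k) {R S : SimpleGraph (VV k N)}
    (hcov : ∀ x y, (GG k N).Adj x y → R.Adj x y ∨ S.Adj x y)
    {HR HS : Finset (Bool × Fin (k - 1))} (hcR : k - 2 ≤ HR.card) (hcS : k - 2 ≤ HS.card)
    {j : Fin (2 * k) → Fin N} (hj : Function.Injective j)
    (hR : ∀ h ∈ HR, ∀ t, R.Adj (VV.hub h.1 h.2) (VV.pt (j t)))
    (hS : ∀ h ∈ HS, ∀ t, S.Adj (VV.hub h.1 h.2) (VV.pt (j t)))
    (a : Fin 2 → Fin (2 * k)) (b : Fin 3 → Fin (2 * k)) (ha : Function.Injective a)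
    (hb : Function.Injective b) (hab : ∀ s t, a s ≠ b t)
    (haR : ∀ s, R.Adj (VV.pt (j (a s))) (VV.cell j (a s)))
    (hbS : ∀ s, S.Adj (VV.pt (j (b s))) (VV.cell j (b s))) :
    cycleGraph (2 * k) ⊑ R ∨ cycleGraph (2 * k) ⊑ S := by
  by_contra hcon
  rw [not_or] at hcon
  have h1 : ∀ t, ∃ s, S.Adj (VV.cell j (b t)) (VV.cell j (a s)) := by
    intro t
    by_contra h2
    push Not at h2
    have h3 : ∀ s, R.Adj (VV.cell j (b t)) (VV.cell j (a s)) := by
      intro s
      rcases hcov (VV.cell j (b t)) (VV.cell j (a s)) ⟨rfl, (hab s t).symm⟩ with h4 | h4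
      · exact h4
      · exact absurd h4 (h2 s)
    exact hcon.1 (close hk hcR hj hR (c := a 0) (c' := a 1) (x := b t)
      (fun h => absurd (ha h) (by decide)) (hab 0 t).symm (hab 1 t).symm (haR 0) (haR 1).symm
      (h3 0).symm (h3 1))
  choose g hg using h1
  obtain ⟨t, t', htt, hgg⟩ := Fintype.exists_ne_map_eq_of_card_lt g (by simp)
  have h5 := hg t
  have h6 := hg t'
  rw [← hgg] at h6
  exact hcon.2 (close hk hcS hj hS (c := b t) (c' := b t') (x := a (g t))
    (fun h => htt (hb h)) (hab _ _) (hab _ _) (hbS t) (hbS t').symm h5 h6.symm)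

theorem arrow_cov {k N : ℕ} (hk : 3 ≤ k)
    (hN : Fintype.card (Bool × Fin (k - 1) → Bool) * (2 * k) ≤ N) {R S : SimpleGraph (VV k N)}
    (hcov : ∀ x y, (GG k N).Adj x y → R.Adj x y ∨ S.Adj x y) :
    cycleGraph (2 * k) ⊑ R ∨ cycleGraph (2 * k) ⊑ S := by
  classical
  obtain ⟨P, _, hP⟩ := Finset.exists_le_card_fiber_of_mul_le_card_of_maps_to
    (s := (Finset.univ : Finset (Fin N))) (t := (Finset.univ : Finset (Bool × Fin (k - 1) → Bool)))
    (f := fun i h => decide (R.Adj (VV.hub h.1 h.2) (VV.pt i))) (n := 2 * k)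
    (fun _ _ => Finset.mem_univ _) Finset.univ_nonempty (by
      rw [Finset.card_univ, Finset.card_univ, Fintype.card_fin]
      exact hN)
  have hemb : Nonempty (Fin (2 * k) ↪ (Finset.univ.filter (fun i : Fin N =>
      (fun h : Bool × Fin (k - 1) => decide (R.Adj (VV.hub h.1 h.2) (VV.pt i))) = P))) := by
    apply Function.Embedding.nonempty_of_card_le
    rw [Fintype.card_fin, Fintype.card_coe]
    exact hP
  obtain ⟨emb⟩ := hemb
  let j : Fin (2 * k) → Fin N := fun t => (emb t : Fin N)
  have hj : Function.Injective j := fun s t h => emb.injective (Subtype.ext h)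
  have hjP : ∀ t h, decide (R.Adj (VV.hub h.1 h.2) (VV.pt (j t))) = P h := by
    intro t h
    have h1 := (Finset.mem_filter.1 (emb t).2).2
    exact congrFun h1 h
  let HR : Finset (Bool × Fin (k - 1)) := Finset.univ.filter (fun h => P h = true)
  let HS : Finset (Bool × Fin (k - 1)) := Finset.univ.filter (fun h => ¬ P h = true)
  have hR : ∀ h ∈ HR, ∀ t, R.Adj (VV.hub h.1 h.2) (VV.pt (j t)) := by
    intro h hh t
    have h1 := (Finset.mem_filter.1 hh).2
    rw [← hjP t h] at h1
    exact of_decide_eq_true h1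
  have hS : ∀ h ∈ HS, ∀ t, S.Adj (VV.hub h.1 h.2) (VV.pt (j t)) := by
    intro h hh t
    have h1 := (Finset.mem_filter.1 hh).2
    rw [← hjP t h, decide_eq_true_eq] at h1
    rcases hcov (VV.hub h.1 h.2) (VV.pt (j t)) trivial with h2 | h2
    · exact absurd h2 h1
    · exact h2
  have hsum : HR.card + HS.card = 2 * (k - 1) := by
    have h1 := Finset.card_filter_add_card_filter_not
      (s := (Finset.univ : Finset (Bool × Fin (k - 1)))) (fun h => P h = true)
    rw [Finset.card_univ, Fintype.card_prod, Fintype.card_bool, Fintype.card_fin] at h1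
    exact h1
  by_cases hbR : k ≤ HR.card
  · exact Or.inl (big hk hbR hj hR)
  by_cases hbS : k ≤ HS.card
  · exact Or.inr (big hk hbS hj hS)
  have hcR : k - 2 ≤ HR.card := by omega
  have hcS : k - 2 ≤ HS.card := by omega
  have hatt : ∀ c, R.Adj (VV.pt (j c)) (VV.cell j c) ∨ S.Adj (VV.pt (j c)) (VV.cell j c) :=
    fun c => hcov _ _ rfl
  have hcov' : ∀ x y, (GG k N).Adj x y → S.Adj x y ∨ R.Adj x y := fun x y h => (hcov x y h).symm
  by_cases h1 : ∃ y, ∀ c, c ≠ y → S.Adj (VV.pt (j c)) (VV.cell j c)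
  · obtain ⟨y, hy⟩ := h1
    exact main_one hk hcov hcS hj hS y hy
  by_cases h2 : ∃ y, ∀ c, c ≠ y → R.Adj (VV.pt (j c)) (VV.cell j c)
  · obtain ⟨y, hy⟩ := h2
    exact (main_one hk hcov' hcR hj hR y hy).symm
  push Not at h1 h2
  obtain ⟨a1, _, ha1⟩ := h1 ⟨0, by omega⟩
  obtain ⟨a2, ha21, ha2⟩ := h1 a1
  obtain ⟨b1, _, hb1⟩ := h2 ⟨0, by omega⟩
  obtain ⟨b2, hb21, hb2⟩ := h2 b1
  have ha1R := (hatt a1).resolve_right ha1
  have ha2R := (hatt a2).resolve_right ha2
  have hb1S := (hatt b1).resolve_left hb1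
  have hb2S := (hatt b2).resolve_left hb2
  have h11 : a1 ≠ b1 := fun h => ha1 (h ▸ hb1S)
  have h12 : a1 ≠ b2 := fun h => ha1 (h ▸ hb2S)
  have h21 : a2 ≠ b1 := fun h => ha2 (h ▸ hb1S)
  have h22 : a2 ≠ b2 := fun h => ha2 (h ▸ hb2S)
  obtain ⟨w, hw⟩ : ∃ w : Fin (2 * k), w ∉ ({a1, a2, b1, b2} : Finset (Fin (2 * k))) := by
    by_contra hcon
    push Not at hcon
    have h3 : (Finset.univ : Finset (Fin (2 * k))).card ≤
        ({a1, a2, b1, b2} : Finset (Fin (2 * k))).card :=
      Finset.card_le_card (fun w _ => hcon w)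
    have h4 : ({a1, a2, b1, b2} : Finset (Fin (2 * k))).card ≤ 4 := Finset.card_le_four
    rw [Finset.card_univ, Fintype.card_fin] at h3
    omega
  simp only [Finset.mem_insert, Finset.mem_singleton, not_or] at hw
  obtain ⟨hw1, hw2, hw3, hw4⟩ := hw
  rcases hatt w with h3 | h3
  · -- `w` is attached in `R`: two vertices `b`, three vertices `a`
    refine (main_two hk hcov' hcS hcR hj hS hR ![b1, b2] ![a1, a2, w] ?_ ?_ ?_ ?_ ?_).symm
    · intro s t hst
      fin_cases s <;> fin_cases t <;> simp_all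
    · intro s t hst
      fin_cases s <;> fin_cases t <;> simp_all
    · intro s t hst
      fin_cases s <;> fin_cases t <;> simp_all
    · intro s
      fin_cases s
      · exact hb1S
      · exact hb2S
    · intro s
      fin_cases s
      · exact ha1R
      · exact ha2R
      · exact h3
  · refine main_two hk hcov hcR hcS hj hR hS ![a1, a2] ![b1, b2, w] ?_ ?_ ?_ ?_ ?_
    · intro s t hst
      fin_cases s <;> fin_cases t <;> simp_all
    · intro s t hst
      fin_cases s <;> fin_cases t <;> simp_all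
    · intro s t hst
      fin_cases s <;> fin_cases t <;> simp_all
    · intro s
      fin_cases s
      · exact ha1R
      · exact ha2R
    · intro s
      fin_cases s
      · exact hb1S
      · exact hb2S
      · exact h3

/-- transport to `Fin n` -/
theorem not_equiv_of {V W W' : Type} [Finite V] {G R₀ : SimpleGraph V} {H : SimpleGraph W}
    {H' : SimpleGraph W'} (harr : ∀ R S : SimpleGraph V, (∀ x y, G.Adj x y → R.Adj x y ∨ S.Adj x y) →
      H ⊑ R ∨ H ⊑ S) (hR₀ : R₀ ≤ G) (h1 : ¬ H' ⊑ R₀) (h2 : ¬ H' ⊑ G \ R₀) :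
    ¬ RamseyEquiv H H' := by
  intro heq
  obtain ⟨n, ⟨e⟩⟩ := Finite.exists_equiv_fin V
  let G' : SimpleGraph (Fin n) := G.comap e.symm
  have ha : Arrows G' H := by
    intro R' _
    rcases harr (R'.comap e) ((G' \ R').comap e) (fun x y hxy => by
      by_cases h3 : R'.Adj (e x) (e y)
      · exact Or.inl h3
      · refine Or.inr ⟨?_, h3⟩
        show G.Adj (e.symm (e x)) (e.symm (e y))
        rw [Equiv.symm_apply_apply, Equiv.symm_apply_apply]
        exact hxy) with h3 | h3
    · exact Or.inl (h3.trans ⟨⟨⟨e, fun h => h⟩, e.injective⟩⟩)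
    · exact Or.inr (h3.trans ⟨⟨⟨e, fun h => h⟩, e.injective⟩⟩)
  rcases (heq n G').1 ha (R₀.comap e.symm) (fun _ _ h => hR₀ h) with h3 | h3
  · exact h1 (h3.trans ⟨⟨⟨e.symm, fun h => h⟩, e.symm.injective⟩⟩)
  · exact h2 (h3.trans ⟨⟨⟨e.symm, fun h => h⟩, e.symm.injective⟩⟩)

theorem twoConn_cycle {n : ℕ} (hn : 3 ≤ n) : TwoConn (cycleGraph n) := by
  refine ⟨?_, ?_, ?_⟩
  · rw [Nat.card_eq_fintype_card, Fintype.card_fin]
    exact hn
  · obtain ⟨m, rfl⟩ : ∃ m, n = m + 1 := ⟨n - 1, by omega⟩
    exact cycleGraph_connected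
  · intro v
    have hv := v.2
    -- the path `v + 1, ..., v + n - 1`
    obtain ⟨m, hm⟩ : ∃ m, n = m + 2 := ⟨n - 2, by omega⟩
    let p : ℕ → ℕ := fun i => if v.val + 1 + i < n then v.val + 1 + i else v.val + 1 + i - n
    have hp : ∀ i, i < m + 1 → p i < n ∧ p i ≠ v.val := by
      intro i hi
      show (if v.val + 1 + i < n then v.val + 1 + i else v.val + 1 + i - n) < n ∧
        (if v.val + 1 + i < n then v.val + 1 + i else v.val + 1 + i - n) ≠ v.val
      split_ifs <;> omega
    have hps : ∀ i, i + 1 < m + 1 → ∀ (h : p i < n) (h' : p (i + 1) < n),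
        (cycleGraph n).Adj ⟨p i, h⟩ ⟨p (i + 1), h'⟩ := by
      intro i hi h h'
      by_cases h3 : v.val + 1 + (i + 1) < n
      · apply adj_succ
        show p i + 1 = p (i + 1)
        have h4 : v.val + 1 + i < n := by omega
        simp only [p, h3, h4, if_true]
        omega
      · by_cases h4 : v.val + 1 + i < n
        · apply adj_last (by omega)
          · show p i + 1 = n
            simp only [p, h4, if_true]
            omega
          · show p (i + 1) = 0
            simp only [p, h3, if_false]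
            omega
        · apply adj_succ
          show p i + 1 = p (i + 1)
          simp only [p, h3, h4, if_false]
          omega
    let φ : pathGraph (m + 1) →g (cycleGraph n).induce {v}ᶜ :=
      { toFun := fun i => ⟨⟨p i.val, (hp _ i.2).1⟩, fun h => (hp _ i.2).2 (congrArg Fin.val h)⟩
        map_rel' := by
          intro a b hab
          rw [pathGraph_adj] at hab
          show (cycleGraph n).Adj ⟨p a.val, _⟩ ⟨p b.val, _⟩
          rcases hab with h3 | h3
          · have h4 := hps a.val (by rw [h3]; exact b.2) (hp _ a.2).1 (by rw [h3]; exact (hp _ b.2).1)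
            simp only [h3] at h4
            exact h4
          · have h4 := hps b.val (by rw [h3]; exact a.2) (hp _ b.2).1 (by rw [h3]; exact (hp _ a.2).1)
            simp only [h3] at h4
            exact h4.symm }
    apply (pathGraph_connected m).map φ
    rintro ⟨u, hu⟩
    have hu' : u.val ≠ v.val := fun h => hu (Fin.ext h)
    have hul := u.2
    by_cases h3 : v.val < u.val
    · refine ⟨⟨u.val - v.val - 1, by omega⟩, Subtype.ext (Fin.ext ?_)⟩
      show p (u.val - v.val - 1) = u.val
      have h4 : v.val + 1 + (u.val - v.val - 1) < n := by omega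
      simp only [p, h4, if_true]
      omega
    · refine ⟨⟨u.val + n - v.val - 1, by omega⟩, Subtype.ext (Fin.ext ?_)⟩
      show p (u.val + n - v.val - 1) = u.val
      have h4 : ¬ v.val + 1 + (u.val + n - v.val - 1) < n := by omega
      simp only [p, h4, if_false]
      omega

theorem cyc : CycStmt := by
  intro k hk
  refine ⟨twoConn_cycle (by omega), ?_, ?_⟩
  · have h1 := (cycleGraph.bicoloring_of_even (2 * k) (even_two_mul k)).colorable
    rwa [Fintype.card_bool] at h1
  · intro Z hZ
    exact not_equiv_of (G := GG k (Fintype.card (Bool × Fin (k - 1) → Bool) * (2 * k)))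
      (fun R S hcov => arrow_cov hk le_rfl hcov) (RR_le _ _) (red_free hk hZ) (blue_free hk)

end Pool.Agent.RS80.H21
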